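import Mathlib
import Pool.Agent.R207.Packet3

set_option autoImplicit false

/-!
# Failure of the radial maximal estimate on real projective spaces below regularity `1/4`

Functions on `P^d(ℝ)` which depend only on the geodesic distance `r ∈ [0, π/2]` to the base point are
written in geodesic polar coordinates. The invariant measure is, up to a constant, `sin(r)^(d-1) dr`
on `[0, π/2]`, and the radial part of the Laplacian is `F'' + (d-1) cot(r) F'`; a radial function is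
smooth on `P^d(ℝ)` when it extends to a smooth `F` on the line with `F(-r) = F(r) = F(π-r)`.
-/

namespace Pool.Agent.Results.MP_6a2c25_an.Divergence

open Real Set Filter Topology MeasureTheory ContDiff ENNReal

/-- `F` is a smooth radial eigenfunction of `-Δ` on `P^d(ℝ)` with eigenvalue `lam`. -/
structure IsRadialEigenfunction (d : ℕ) (lam : ℝ) (F : ℝ → ℂ) : Prop where
  smooth : ContDiff ℝ ∞ F
  even : ∀ r, F (-r) = F r
  refl : ∀ r, F (π - r) = F r
  eq : ∀ r, (sin r : ℂ) * deriv (deriv F) r + ((d : ℝ) - 1 : ℝ) * (cos r : ℂ) * deriv F r +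
    (lam : ℂ) * (sin r : ℂ) * F r = 0

/-- The invariant measure in the radial variable, `sin(r)^(d-1) dr` on `[0, π/2]`. -/
noncomputable def radialMeasure (d : ℕ) : Measure ℝ :=
  (volume.restrict (Icc 0 (π / 2))).withDensity fun r => ENNReal.ofReal (sin r ^ (d - 1))

/-- The squared `H^α` norm of `∑ n ∈ S, F n`, where `F n` has eigenvalue `n(n+d-1)`. -/
noncomputable def sobolevSq (d : ℕ) (α : ℝ) (S : Finset ℕ) (F : ℕ → ℝ → ℂ) : ℝ :=
  ∑ n ∈ S, (1 + (n : ℝ) * (n + d - 1)) ^ α * ∫ r in (0 : ℝ)..(π / 2), ‖F n r‖ ^ 2 * sin r ^ (d - 1)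

/-- The solution `e^{-itψ(√-Δ)} f` for `f = ∑ n ∈ S, F n`. -/
noncomputable def evolution (d : ℕ) (ψ : ℝ → ℝ) (S : Finset ℕ) (F : ℕ → ℝ → ℂ) (t r : ℝ) : ℂ :=
  ∑ n ∈ S, Complex.exp (-(Complex.I * ((t * ψ √((n : ℝ) * (n + d - 1)) : ℝ) : ℂ))) * F n r

/-- The maximal function over `0 ≤ t < 2π`. -/
noncomputable def maximal (d : ℕ) (ψ : ℝ → ℝ) (S : Finset ℕ) (F : ℕ → ℝ → ℂ) (r : ℝ) : ℝ :=
  ⨆ t : Ico (0 : ℝ) (2 * π), ‖evolution d ψ S F t r‖

/-- The radial maximal estimate on `P^d(ℝ)`, for finite sums of radial eigenfunctions. -/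
def RadialMaximalEstimate (d : ℕ) (ψ : ℝ → ℝ) (p : ℝ≥0∞) (α : ℝ) : Prop :=
  ∃ C : ℝ, ∀ (S : Finset ℕ) (F : ℕ → ℝ → ℂ),
    (∀ n ∈ S, IsRadialEigenfunction d ((n : ℝ) * (n + d - 1)) (F n)) →
    eLpNorm (maximal d ψ S F) p (radialMeasure d) ≤ ENNReal.ofReal (C * √(sobolevSq d α S F))

open Pool.Agent.R207.Packet in
theorem eigen (D K : ℕ) : IsRadialEigenfunction (D + 1) (((2 * K : ℕ) : ℝ) * ((2 * K : ℕ) + (D + 1 : ℕ) - 1))
    (fun r => ((F0 D K r : ℝ) : ℂ)) where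
  smooth := Complex.ofRealCLM.contDiff.comp (F0_smooth D K)
  even := fun r => by rw [F0_even]
  refl := fun r => by rw [F0_pi_sub]
  eq := fun r => by
    have h1 : deriv (fun r => ((F0 D K r : ℝ) : ℂ)) = fun r => ((F1 D K r : ℝ) : ℂ) :=
      funext fun y => (F0_deriv D K y).ofReal_comp.deriv
    rw [h1, (F1_deriv D K r).ofReal_comp.deriv]
    have := congrArg (fun x : ℝ => (x : ℂ)) (F_ode D K r)
    push_cast at this ⊢
    linear_combination this

theorem base_bound {J j D : ℝ} (hJ : 16 ≤ J) (hj0 : 0 ≤ j) (hjJ : j ≤ J) (hD : 0 ≤ D) :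
    0 ≤ 1 + 2 * (8 * J ^ 2 + j) * (2 * (8 * J ^ 2 + j) + (D + 1) - 1) ∧
    1 + 2 * (8 * J ^ 2 + j) * (2 * (8 * J ^ 2 + j) + (D + 1) - 1) ≤ ((19 + D) * J ^ 2) ^ 2 := by
  have hn18 : 2 * (8 * J ^ 2 + j) ≤ 18 * J ^ 2 := by nlinarith
  have hJ1 : 1 ≤ J ^ 2 := by nlinarith
  have a1 : 2 * (8 * J ^ 2 + j) + (D + 1) - 1 ≤ (18 + D) * J ^ 2 := by nlinarith
  have a0 : 0 ≤ 2 * (8 * J ^ 2 + j) + (D + 1) - 1 := by nlinarith
  refine ⟨by positivity, ?_⟩
  have a2 : 2 * (8 * J ^ 2 + j) * (2 * (8 * J ^ 2 + j) + (D + 1) - 1) ≤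
      18 * J ^ 2 * ((18 + D) * J ^ 2) :=
    mul_le_mul hn18 a1 a0 (by positivity)
  have a3 : 1 ≤ J ^ 2 * J ^ 2 := by nlinarith
  have a4 : ((19 + D) * J ^ 2) ^ 2 = 18 * J ^ 2 * ((18 + D) * J ^ 2) +
      J ^ 2 * J ^ 2 * ((19 + D) ^ 2 - 18 * (18 + D)) := by ring
  have a5 : 1 ≤ (19 + D) ^ 2 - 18 * (18 + D) := by nlinarith
  have a6 : 1 ≤ J ^ 2 * J ^ 2 * ((19 + D) ^ 2 - 18 * (18 + D)) := by nlinarith
  linarith

open Pool.Agent.R207.Packet in
theorem main (D : ℕ) (hD : 1 ≤ D) (ψ : ℝ → ℝ) (hψ : ∃ B, ∀ r, 0 ≤ r → |ψ r - r ^ 2| ≤ B)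
    (p : ℝ≥0∞) (hp : 1 ≤ p) (α : ℝ) (hα0 : 0 ≤ α) (hα : α < 1 / 4) :
    ¬ RadialMaximalEstimate (D + 1) ψ p α := by
  rintro ⟨C, HC⟩
  obtain ⟨B, hB⟩ := hψ
  have hpi := Real.pi_pos
  set s : Set ℝ := Icc (π / 4) (3 * π / 8) with hs
  set μ := radialMeasure (D + 1) with hμ
  have hμs : μ s ≠ 0 := by
    rw [hμ, radialMeasure, withDensity_apply _ measurableSet_Icc,
      Measure.restrict_restrict measurableSet_Icc]
    have hss : s ∩ Icc 0 (π / 2) = s := by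
      apply inter_eq_left.mpr
      intro r hr
      exact ⟨by linarith [hr.1], by linarith [hr.2]⟩
    rw [hss]
    have hpos : ∀ r ∈ s, 0 < sin r ^ (D + 1 - 1) := fun r hr =>
      pow_pos (Real.sin_pos_of_pos_of_lt_pi (by linarith [hr.1]) (by linarith [hr.2])) _
    rw [Ne, lintegral_eq_zero_iff (by fun_prop)]
    intro h0
    have h1 : ∀ᵐ r ∂(volume.restrict s), False := by
      filter_upwards [h0, ae_restrict_mem measurableSet_Icc] with r hr hrs
      have := hpos r hrs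
      simp only [Pi.zero_apply, ENNReal.ofReal_eq_zero] at hr
      linarith
    rw [ae_iff] at h1
    simp only [not_false_eq_true, Set.ofPred_true, Measure.restrict_apply_univ] at h1
    rw [hs, Real.volume_Icc, ENNReal.ofReal_eq_zero] at h1
    linarith
  have hp0 : p ≠ 0 := (lt_of_lt_of_le one_pos hp).ne'
  set v : ℝ≥0∞ := μ s ^ (1 / p.toReal) with hv
  have hv0 : 0 < v := by
    rw [hv]
    rcases eq_or_ne (1 / p.toReal) 0 with h | h
    · rw [h]; simp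
    · exact ENNReal.rpow_pos_of_nonneg (pos_iff_ne_zero.mpr hμs) (by positivity)
  obtain ⟨w, hw0, hwv⟩ := ENNReal.lt_iff_exists_nnreal_btwn.mp hv0
  have hw0' : (0 : ℝ) < w := by exact_mod_cast hw0
  -- the constant of the sobolev norm
  set C4 : ℝ := 1 + Real.exp (2 * |kap D|) ^ 2 with hC4
  have hC4p : 0 < C4 := by positivity
  set C5 : ℝ := C ^ 2 * (C4 * (19 + (D : ℝ)) ^ (2 * α)) with hC5
  set C6 : ℝ := (B + ((D : ℝ) / 2) ^ 2) * Real.exp (2 * |kap D|) +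
      2 * |kap D| * Real.exp (2 * |kap D|) with hC6
  set g : ℝ := 1 - 4 * α with hg
  have hg0 : 0 < g := by rw [hg]; linarith
  obtain ⟨J, hJ16, hJ6, hJg⟩ : ∃ J : ℕ, 16 ≤ J ∧ C6 ≤ J ∧ 16 * C5 / (w : ℝ) ^ 2 < (J : ℝ) ^ g := by
    have h1 : ∀ᶠ J : ℕ in atTop, 16 ≤ J := eventually_ge_atTop 16
    have h2 : ∀ᶠ J : ℕ in atTop, C6 ≤ (J : ℝ) := tendsto_natCast_atTop_atTop.eventually_ge_atTop C6
    have h3 : ∀ᶠ J : ℕ in atTop, 16 * C5 / (w : ℝ) ^ 2 < (J : ℝ) ^ g :=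
      ((tendsto_rpow_atTop hg0).comp tendsto_natCast_atTop_atTop).eventually_gt_atTop _
    exact (h1.and (h2.and h3)).exists
  have hJr : (16 : ℝ) ≤ J := by exact_mod_cast hJ16
  set S : Finset ℕ := (Finset.range J).image fun j => 2 * (8 * J ^ 2 + j) with hS
  set F : ℕ → ℝ → ℂ := fun n r => ((F0 D (n / 2) r : ℝ) : ℂ) with hF
  have hinj : Set.InjOn (fun j => 2 * (8 * J ^ 2 + j)) (Finset.range J : Set ℕ) := by
    intro a _ b _ hab
    simp only at hab
    omega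
  have hhalf : ∀ j : ℕ, 2 * (8 * J ^ 2 + j) / 2 = 8 * J ^ 2 + j := fun j => by omega
  have hE := HC S F (fun n hn => by
    rw [hS, Finset.mem_image] at hn
    obtain ⟨j, _, rfl⟩ := hn
    rw [hF]
    simp only [hhalf]
    exact eigen D (8 * J ^ 2 + j))
  -- lower bound
  have hlow : ∀ r ∈ s, (J : ℝ) / 4 ≤ maximal (D + 1) ψ S F r := by
    intro r hr
    obtain ⟨t, ht, hlt⟩ := packet_large D ψ hB hJ16 hJ6 (x := π / 2 - r) (by linarith [hr.2])
      (by linarith [hr.1])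
    have e0 : π / 2 - (π / 2 - r) = r := by ring
    rw [e0] at hlt
    have hbdd : BddAbove (Set.range fun t : Ico (0 : ℝ) (2 * π) => ‖evolution (D + 1) ψ S F t r‖) := by
      refine ⟨∑ n ∈ S, ‖F n r‖, ?_⟩
      rintro _ ⟨t, rfl⟩
      unfold evolution
      refine (norm_sum_le _ _).trans (Finset.sum_le_sum fun n _ => ?_)
      rw [norm_mul]
      have : ‖Complex.exp (-(Complex.I * (((t : ℝ) * ψ √((n : ℝ) * (n + (D + 1 : ℕ) - 1)) : ℝ) : ℂ)))‖
          = 1 := by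
        have := ex_norm (-((t : ℝ) * ψ √((n : ℝ) * (n + (D + 1 : ℕ) - 1))))
        unfold ex at this
        rw [Complex.ofReal_neg, mul_neg] at this
        exact this
      rw [this, one_mul]
    refine hlt.trans ?_
    have hev : ‖∑ j ∈ Finset.range J, ex (-(t * ψ √((2 * (8 * J ^ 2 + j : ℕ)) *
        (2 * (8 * J ^ 2 + j : ℕ) + D)))) * ((F0 D (8 * J ^ 2 + j) r : ℝ) : ℂ)‖ =
        ‖evolution (D + 1) ψ S F t r‖ := by
      congr 1
      unfold evolution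
      rw [hS, Finset.sum_image hinj]
      apply Finset.sum_congr rfl
      intro j _
      rw [hF]
      simp only [hhalf]
      congr 1
      unfold ex
      rw [Complex.ofReal_neg, mul_neg]
      congr 6
      push_cast
      ring_nf
    rw [hev]
    exact le_ciSup hbdd ⟨t, ht⟩
  have hnn : ∀ r, 0 ≤ maximal (D + 1) ψ S F r := fun r => Real.iSup_nonneg fun t => norm_nonneg _
  have h1 : ENNReal.ofReal ((J : ℝ) / 4) * w ≤ eLpNorm (maximal (D + 1) ψ S F) p μ := by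
    have h2 : eLpNorm (s.indicator fun _ => (J : ℝ) / 4) p μ ≤ eLpNorm (maximal (D + 1) ψ S F) p μ := by
      apply eLpNorm_mono_real
      intro r
      by_cases hr : r ∈ s
      · rw [Set.indicator_of_mem hr, Real.norm_eq_abs, abs_of_nonneg (by positivity)]
        exact hlow r hr
      · rw [Set.indicator_of_notMem hr, norm_zero]
        exact hnn r
    rw [eLpNorm_indicator_const' measurableSet_Icc hμs hp0] at h2
    refine le_trans ?_ h2
    rw [Real.enorm_eq_ofReal (by positivity)]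
    gcongr
  -- upper bound
  have h3 : sobolevSq (D + 1) α S F ≤ (J : ℝ) * ((((19 + (D : ℝ)) * (J : ℝ) ^ 2) ^ 2) ^ α * C4) := by
    unfold sobolevSq
    rw [hS, Finset.sum_image hinj]
    have : ∀ j ∈ Finset.range J, (1 + ((2 * (8 * J ^ 2 + j) : ℕ) : ℝ) *
        (((2 * (8 * J ^ 2 + j) : ℕ) : ℝ) + ((D + 1 : ℕ) : ℝ) - 1)) ^ α *
        (∫ r in (0 : ℝ)..(π / 2), ‖F (2 * (8 * J ^ 2 + j)) r‖ ^ 2 * sin r ^ (D + 1 - 1)) ≤
        (((19 + (D : ℝ)) * (J : ℝ) ^ 2) ^ 2) ^ α * C4 := by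
      intro j hj
      have hjJ : (j : ℝ) ≤ J := by exact_mod_cast (Finset.mem_range.mp hj).le
      have hj0 : (0 : ℝ) ≤ j := by positivity
      have hD0 : (0 : ℝ) ≤ D := by positivity
      have hmass := mass_le D (8 * J ^ 2 + j) hD (by nlinarith)
      have e : ∫ r in (0 : ℝ)..(π / 2), ‖F (2 * (8 * J ^ 2 + j)) r‖ ^ 2 * sin r ^ (D + 1 - 1) =
          ∫ r in (0 : ℝ)..(π / 2), sin r ^ D * F0 D (8 * J ^ 2 + j) r ^ 2 := by
        apply intervalIntegral.integral_congr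
        intro r _
        rw [hF]
        simp only [hhalf, Complex.norm_real, Real.norm_eq_abs, sq_abs, Nat.add_sub_cancel]
        ring
      rw [e]
      push_cast
      obtain ⟨hb0, hbase⟩ := base_bound hJr hj0 hjJ hD0
      have hI0 : 0 ≤ ∫ r in (0 : ℝ)..(π / 2), sin r ^ D * F0 D (8 * J ^ 2 + j) r ^ 2 := by
        apply intervalIntegral.integral_nonneg (by positivity)
        intro r hr
        have : 0 ≤ sin r := Real.sin_nonneg_of_nonneg_of_le_pi hr.1 (by linarith [hr.2])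
        positivity
      apply mul_le_mul (Real.rpow_le_rpow hb0 hbase hα0) hmass hI0 (by positivity)
    refine (Finset.sum_le_sum this).trans ?_
    rw [Finset.sum_const, Finset.card_range, nsmul_eq_mul]
  have h4 := h1.trans hE
  rw [← ENNReal.ofReal_coe_nnreal, ← ENNReal.ofReal_mul (by positivity)] at h4
  have h5 : (J : ℝ) / 4 * w ≤ C * √(sobolevSq (D + 1) α S F) := by
    rcases (ENNReal.ofReal_le_ofReal_iff').mp h4 with h | h
    · exact h
    · exfalso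
      have : 0 < (J : ℝ) / 4 * w := by positivity
      linarith
  have h6 : ((J : ℝ) / 4 * w) ^ 2 ≤ C ^ 2 * sobolevSq (D + 1) α S F := by
    have hpos : 0 < (J : ℝ) / 4 * w := by positivity
    have hS0 : 0 ≤ sobolevSq (D + 1) α S F := by
      by_contra hneg
      push Not at hneg
      rw [Real.sqrt_eq_zero_of_nonpos hneg.le] at h5
      linarith
    calc ((J : ℝ) / 4 * w) ^ 2 ≤ (C * √(sobolevSq (D + 1) α S F)) ^ 2 := by gcongr
      _ = _ := by rw [mul_pow, Real.sq_sqrt hS0]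
  have h7 : ((J : ℝ) / 4 * w) ^ 2 ≤ C5 * ((J : ℝ) * (J : ℝ) ^ (4 * α)) := by
    refine h6.trans ?_
    have h8 : (((19 + (D : ℝ)) * (J : ℝ) ^ 2) ^ 2) ^ α = (19 + (D : ℝ)) ^ (2 * α) * (J : ℝ) ^ (4 * α) := by
      rw [mul_pow, Real.mul_rpow (by positivity) (by positivity), ← Real.rpow_natCast (19 + (D : ℝ)) 2,
        ← Real.rpow_mul (by positivity), ← pow_mul, ← Real.rpow_natCast (J : ℝ) (2 * 2),
        ← Real.rpow_mul (by positivity)]
      push_cast
      norm_num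
    rw [h8] at h3
    calc C ^ 2 * sobolevSq (D + 1) α S F ≤
        C ^ 2 * ((J : ℝ) * ((19 + (D : ℝ)) ^ (2 * α) * (J : ℝ) ^ (4 * α) * C4)) := by gcongr
      _ = _ := by rw [hC5]; ring
  have h9 : (J : ℝ) ^ g * ((J : ℝ) * (J : ℝ) ^ (4 * α)) = (J : ℝ) ^ 2 := by
    have hJ0 : (0 : ℝ) < J := by linarith
    rw [hg, mul_left_comm, ← Real.rpow_add hJ0]
    have : 1 - 4 * α + 4 * α = 1 := by ring
    rw [this, Real.rpow_one]
    ring
  rw [div_lt_iff₀ (by positivity)] at hJg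
  have h10 : 0 < (J : ℝ) * (J : ℝ) ^ (4 * α) := by
    have hJ0 : (0 : ℝ) < J := by linarith
    positivity
  have h11 : 16 * C5 * ((J : ℝ) * (J : ℝ) ^ (4 * α)) < (J : ℝ) ^ 2 * (w : ℝ) ^ 2 := by
    rw [← h9]
    calc 16 * C5 * ((J : ℝ) * (J : ℝ) ^ (4 * α)) <
        ((J : ℝ) ^ g * (w : ℝ) ^ 2) * ((J : ℝ) * (J : ℝ) ^ (4 * α)) :=
          mul_lt_mul_of_pos_right hJg h10
      _ = _ := by ring
  nlinarith

/-- The radial maximal estimate fails on `P^d(ℝ)`, `d ≥ 2`, for `0 ≤ α < 1/4`, every `1 ≤ p ≤ ∞`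
and every `ψ` with `ψ(r) - r²` bounded; the Schrödinger, Boussinesq and beam equations are of this
kind. -/
theorem result :
    (∀ (d : ℕ) (ψ : ℝ → ℝ) (p : ℝ≥0∞) (α : ℝ), 2 ≤ d → (∃ B, ∀ r, 0 ≤ r → |ψ r - r ^ 2| ≤ B) →
      1 ≤ p → 0 ≤ α → α < 1 / 4 → ¬ RadialMaximalEstimate d ψ p α) ∧
    (∀ ψ ∈ ({fun r => r ^ 2, fun r => r * √(1 + r ^ 2), fun r => √(1 + r ^ 4)} : Set (ℝ → ℝ)),
      ∃ B, ∀ r, 0 ≤ r → |ψ r - r ^ 2| ≤ B) := by
  constructor
  · intro d ψ p α hd hψ hp hα0 hα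
    obtain ⟨D, rfl⟩ : ∃ D, d = D + 1 := ⟨d - 1, by omega⟩
    exact main D (by omega) ψ hψ p hp α hα0 hα
  · intro ψ hψ
    simp only [Set.mem_insert_iff, Set.mem_singleton_iff] at hψ
    rcases hψ with rfl | rfl | rfl
    · exact ⟨0, fun r _ => by simp⟩
    · refine ⟨1, fun r hr => ?_⟩
      have h1 : r ≤ √(1 + r ^ 2) := Real.le_sqrt_of_sq_le (by linarith)
      have h2 : r * √(1 + r ^ 2) ≤ r ^ 2 + 1 := by
        have h3 : √(1 + r ^ 2) ^ 2 = 1 + r ^ 2 := Real.sq_sqrt (by positivity)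
        nlinarith [sq_nonneg (r - √(1 + r ^ 2))]
      beta_reduce
      rw [abs_le]
      constructor <;> nlinarith
    · refine ⟨1, fun r hr => ?_⟩
      have h1 : r ^ 2 ≤ √(1 + r ^ 4) := Real.le_sqrt_of_sq_le (by nlinarith)
      have h2 : √(1 + r ^ 4) ≤ r ^ 2 + 1 := by
        rw [Real.sqrt_le_left (by positivity)]
        nlinarith [sq_nonneg r]
      beta_reduce
      rw [abs_le]
      constructor <;> linarith

end Pool.Agent.Results.MP_6a2c25_an.Divergence
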